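import Pool.Agent.Helper70.MB.Goals
import Pool.Agent.Helper67.MaxMeas.PD

/-!
# Project MB, packet FK
-/

open MeasureTheory Set Metric ProbabilityTheory
open scoped ENNReal FourierTransform Topology ContDiff
open Pool.Agent.Results.MP_91ee6f_gt
open Pool.Agent.Helper70.MB

namespace Pool.Agent.Helper24.MB

lemma finrank_En (n : ℕ) : Module.finrank ℝ (En n) = n := by simp [En]

lemma integrable_exp_neg_norm (n : ℕ) : Integrable (fun x : En n => Real.exp (-‖x‖)) := by
  have h : ((Module.finrank ℝ (En n) : ℕ) : ℝ) < (n : ℝ) + 1 := by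
    rw [finrank_En]; linarith
  have h1 := (integrable_one_add_norm (E := En n) (μ := volume) h).const_mul
    (Real.exp 1 * (n + 1).factorial)
  refine h1.mono' (by fun_prop) (Filter.Eventually.of_forall fun x => ?_)
  rw [Real.norm_eq_abs, abs_of_pos (Real.exp_pos _)]
  have hx : 0 < 1 + ‖x‖ := by positivity
  have h2 := Real.pow_div_factorial_le_exp (1 + ‖x‖) hx.le (n + 1)
  have h3 : (1 + ‖x‖) ^ (-((n : ℝ) + 1)) = ((1 + ‖x‖) ^ (n + 1))⁻¹ := by
    rw [Real.rpow_neg hx.le, ← Real.rpow_natCast]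
    push_cast
    rfl
  rw [h3]
  have h4 : Real.exp (-‖x‖) = Real.exp 1 * (Real.exp (1 + ‖x‖))⁻¹ := by
    rw [← Real.exp_neg, ← Real.exp_add]
    congr 1
    ring
  rw [h4, mul_assoc]
  apply mul_le_mul_of_nonneg_left _ (Real.exp_pos _).le
  have hf : (0 : ℝ) < (n + 1).factorial := by positivity
  have hp : 0 < (1 + ‖x‖) ^ (n + 1) := by positivity
  rw [← div_eq_mul_inv, inv_eq_one_div, div_le_div_iff₀ (Real.exp_pos _) hp, one_mul]
  rw [div_le_iff₀ hf] at h2
  linarith

lemma CK_eq (n : ℕ) (hn : 1 ≤ n) :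
    CK n = (n.factorial : ℝ) * (volume : Measure (En n)).real (ball 0 1) := by
  have : Nontrivial (En n) := by
    apply Module.nontrivial_of_finrank_pos (R := ℝ)
    rw [finrank_En]; omega
  unfold CK
  rw [integral_fun_norm_addHaar (volume : Measure (En n)) (fun y => Real.exp (-y)), finrank_En]
  have h : ∫ y in Ioi (0 : ℝ), y ^ (n - 1) • Real.exp (-y) = ((n - 1).factorial : ℝ) := by
    rw [← Real.Gamma_nat_eq_factorial, Real.Gamma_eq_integral (by positivity)]
    refine setIntegral_congr_fun measurableSet_Ioi fun y hy => ?_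
    simp only [smul_eq_mul]
    rw [add_sub_cancel_right, Real.rpow_natCast, mul_comm]
  rw [h, nsmul_eq_mul, smul_eq_mul]
  obtain ⟨m, rfl⟩ : ∃ m, n = m + 1 := ⟨n - 1, by omega⟩
  simp only [Nat.add_sub_cancel, Nat.factorial_succ]
  push_cast
  ring

lemma integrable_br_neg (n : ℕ) : Integrable (fun ξ : En n => br ξ ^ (-sx n)) := by
  have h : ((Module.finrank ℝ (En n) : ℕ) : ℝ) < (n : ℝ) + 1 := by
    rw [finrank_En]; linarith
  have h1 := integrable_rpow_neg_one_add_norm_sq (E := En n) (μ := volume) h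
  refine h1.mono' (continuous_br_rpow _).aestronglyMeasurable
    (Filter.Eventually.of_forall fun ξ => ?_)
  rw [Real.norm_eq_abs, abs_of_pos (br_rpow_pos ξ _)]
  have e : -((n : ℝ) + 1) / 2 = -sx n := by unfold sx; ring
  rw [e]
  apply Real.rpow_le_rpow_of_nonpos (by positivity)
  · unfold br
    have hpi : 1 ≤ 2 * Real.pi := by linarith [Real.pi_gt_three]
    have : ‖ξ‖ ^ 2 ≤ (2 * Real.pi * ‖ξ‖) ^ 2 := by
      apply pow_le_pow_left₀ (norm_nonneg _)
      nlinarith [norm_nonneg ξ]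
    linarith
  · unfold sx
    have : 0 ≤ ((n : ℝ) + 1) / 2 := by positivity
    linarith

/-- The gaussian of width `t`. -/
noncomputable def gs {n : ℕ} (t : ℝ) (x : En n) : ℝ := Real.exp (-(‖x‖ ^ 2 / (2 * t ^ 2)))

lemma hat_gs {n : ℕ} (t : ℝ) (ht : t ≠ 0) (ξ : En n) :
    hat (gs t) ξ = (((2 * Real.pi * t ^ 2) ^ ((n : ℝ) / 2) *
      Real.exp (-(t ^ 2 * (2 * Real.pi * ‖ξ‖) ^ 2 / 2)) : ℝ) : ℂ) := by
  have hb : 0 < (((1 / (2 * t ^ 2) : ℝ)) : ℂ).re := by
    rw [Complex.ofReal_re]; positivity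
  have h := fourier_gaussian_innerProductSpace (V := En n) hb ξ
  have e1 : (fun v : En n => Complex.exp (-(((1 / (2 * t ^ 2) : ℝ)) : ℂ) * (‖v‖ : ℂ) ^ 2)) =
      fun x : En n => ((gs t x : ℝ) : ℂ) := by
    funext v
    unfold gs
    push_cast
    congr 1
    ring
  rw [e1] at h
  unfold hat
  rw [h, finrank_En, Complex.ofReal_mul, Complex.ofReal_exp]
  congr 1
  · rw [Complex.ofReal_cpow (by positivity)]
    congr 1
    · push_cast
      field_simp
    · push_cast
      rfl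
  · congr 1
    push_cast
    field_simp

lemma exp_eq_integral {n : ℕ} (x : En n) :
    ∫ t, gs t x ∂(gaussianReal 0 1) = Real.exp (-‖x‖) :=
  Pool.Agent.Helper67.MaxMeas.integral_gaussian_inv_sq (norm_nonneg x)

lemma measurable_gs {n : ℕ} : Measurable (fun p : En n × ℝ => gs p.2 p.1) := by
  unfold gs
  fun_prop

lemma gs_pos {n : ℕ} (t : ℝ) (x : En n) : 0 < gs t x := Real.exp_pos _

lemma gs_le {n : ℕ} (t : ℝ) (x : En n) : gs t x ≤ 1 := by
  unfold gs
  rw [Real.exp_le_one_iff]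
  have : 0 ≤ ‖x‖ ^ 2 / (2 * t ^ 2) := by positivity
  linarith

lemma hat_exp {n : ℕ} (ξ : En n) :
    hat (fun x : En n => Real.exp (-‖x‖)) ξ =
      ∫ t, hat (gs t) ξ ∂(gaussianReal 0 1) := by
  rw [hat_eq]
  simp_rw [hat_eq]
  have hsw := integral_integral_swap (μ := (volume : Measure (En n)))
    (ν := gaussianReal 0 1)
    (f := fun x t => Complex.exp ((↑(-2 * Real.pi * inner ℝ x ξ) * Complex.I)) *
      ((gs t x : ℝ) : ℂ)) ?_
  · rw [← hsw]
    congr 1
    funext x
    rw [integral_const_mul, integral_complex_ofReal, exp_eq_integral]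
  · have hm : Measurable (Function.uncurry fun (x : En n) (t : ℝ) =>
        Complex.exp ((↑(-2 * Real.pi * inner ℝ x ξ) * Complex.I)) * ((gs t x : ℝ) : ℂ)) := by
      apply Measurable.mul
      · fun_prop
      · exact Complex.measurable_ofReal.comp measurable_gs
    have hn : ∀ (x : En n) (t : ℝ), ‖Complex.exp ((↑(-2 * Real.pi * inner ℝ x ξ) * Complex.I)) *
        ((gs t x : ℝ) : ℂ)‖ = gs t x := by
      intro x t
      rw [norm_mul, Complex.norm_exp_ofReal_mul_I, one_mul, Complex.norm_real, Real.norm_eq_abs,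
        abs_of_pos (gs_pos t x)]
    rw [integrable_prod_iff hm.aestronglyMeasurable]
    constructor
    · refine Filter.Eventually.of_forall fun x => ?_
      refine (integrable_const (1 : ℝ)).mono' ?_ (Filter.Eventually.of_forall fun t => ?_)
      · exact (hm.comp measurable_prodMk_left).aestronglyMeasurable
      · simp only [Function.uncurry_apply_pair]
        rw [hn]
        exact gs_le t x
    · simp only [Function.uncurry_apply_pair, hn, exp_eq_integral]
      exact integrable_exp_neg_norm n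

/-- The one-dimensional integral. -/
noncomputable def II (n : ℕ) (b : ℝ) : ℝ :=
  ∫ t : ℝ, (Real.sqrt (2 * Real.pi))⁻¹ * (2 * Real.pi * t ^ 2) ^ ((n : ℝ) / 2) *
    Real.exp (-(b * t ^ 2 / 2))

lemma II_scale (n : ℕ) (b : ℝ) (hb : 0 < b) : II n b = II n 1 * b ^ (-sx n) := by
  have hs : 0 < Real.sqrt b := Real.sqrt_pos.2 hb
  have h := Measure.integral_comp_mul_left (fun t : ℝ => (Real.sqrt (2 * Real.pi))⁻¹ *
    (2 * Real.pi * t ^ 2) ^ ((n : ℝ) / 2) * Real.exp (-(1 * t ^ 2 / 2))) (Real.sqrt b)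
  have e : ∀ t : ℝ, (Real.sqrt (2 * Real.pi))⁻¹ *
      (2 * Real.pi * (Real.sqrt b * t) ^ 2) ^ ((n : ℝ) / 2) *
        Real.exp (-(1 * (Real.sqrt b * t) ^ 2 / 2)) =
      b ^ ((n : ℝ) / 2) * ((Real.sqrt (2 * Real.pi))⁻¹ *
        (2 * Real.pi * t ^ 2) ^ ((n : ℝ) / 2) * Real.exp (-(b * t ^ 2 / 2))) := by
    intro t
    rw [mul_pow, Real.sq_sqrt hb.le]
    rw [show 2 * Real.pi * (b * t ^ 2) = b * (2 * Real.pi * t ^ 2) by ring,
      Real.mul_rpow hb.le (by positivity)]
    rw [show (1 : ℝ) * (b * t ^ 2) / 2 = b * t ^ 2 / 2 by ring]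
    ring
  simp only [e] at h
  rw [integral_const_mul, smul_eq_mul, abs_of_pos (inv_pos.2 hs)] at h
  change b ^ ((n : ℝ) / 2) * II n b = (Real.sqrt b)⁻¹ * II n 1 at h
  have hbn : 0 < b ^ ((n : ℝ) / 2) := Real.rpow_pos_of_pos hb _
  have e2 : b ^ (-sx n) = (b ^ ((n : ℝ) / 2))⁻¹ * (Real.sqrt b)⁻¹ := by
    rw [Real.sqrt_eq_rpow, ← Real.rpow_neg hb.le, ← Real.rpow_neg hb.le, ← Real.rpow_add hb]
    congr 1
    unfold sx
    ring
  rw [e2]
  field_simp
  field_simp at h
  linarith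

lemma hat_exp_eq {n : ℕ} (ξ : En n) :
    hat (fun x : En n => Real.exp (-‖x‖)) ξ = ((II n (br ξ) : ℝ) : ℂ) := by
  rw [hat_exp]
  have h0 : ∀ᵐ t ∂(gaussianReal 0 1), hat (gs t) ξ =
      (((2 * Real.pi * t ^ 2) ^ ((n : ℝ) / 2) *
        Real.exp (-(t ^ 2 * (2 * Real.pi * ‖ξ‖) ^ 2 / 2)) : ℝ) : ℂ) := by
    have hne : ∀ᵐ t ∂(gaussianReal 0 1), t ≠ 0 := by
      have : NullSingletonClass (gaussianReal 0 1) := nullSingletonClass_gaussianReal one_ne_zero
      rw [ae_iff]
      simp only [ne_eq, not_not, Set.ofPred_eq_eq_singleton]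
      exact measure_singleton 0
    filter_upwards [hne] with t ht
    exact hat_gs t ht ξ
  rw [integral_congr_ae h0, integral_complex_ofReal,
    integral_gaussianReal_eq_integral_smul one_ne_zero]
  congr 1
  unfold II
  congr 1
  funext t
  simp only [gaussianPDFReal_def, smul_eq_mul, NNReal.coe_one, mul_one, sub_zero]
  have e : Real.exp (-(br ξ * t ^ 2 / 2)) = Real.exp (-t ^ 2 / 2) *
      Real.exp (-(t ^ 2 * (2 * Real.pi * ‖ξ‖) ^ 2 / 2)) := by
    rw [← Real.exp_add]
    congr 1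
    unfold br
    ring
  rw [e]
  ring

theorem fk : FK := by
  intro n hn
  have hI : II n 1 = CK n := by
    have h := hat_exp_eq (n := n) 0
    have hb : br (0 : En n) = 1 := by simp [br]
    rw [hb, hat_eq] at h
    have h2 : ∫ x : En n, Complex.exp ((↑(-2 * Real.pi * inner ℝ x (0 : En n)) * Complex.I)) *
        ((Real.exp (-‖x‖) : ℝ) : ℂ) = ((CK n : ℝ) : ℂ) := by
      unfold CK
      rw [← integral_complex_ofReal]
      congr 1
      funext x
      simp
    rw [h2] at h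
    exact_mod_cast h.symm
  refine ⟨integrable_exp_neg_norm n, ?_, CK_eq n hn, integrable_br_neg n, ?_⟩
  · rw [CK_eq n hn]
    apply mul_pos (by positivity)
    exact ENNReal.toReal_pos (measure_ball_pos _ _ one_pos).ne' measure_ball_lt_top.ne
  · intro ξ
    rw [hat_exp_eq, II_scale n (br ξ) (br_pos ξ), hI]

end Pool.Agent.Helper24.MB
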