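import Pool.Agent.Helper70.MB.Goals

/-!
# Project MB, packet MULT
-/

open MeasureTheory Set Metric
open scoped ENNReal FourierTransform Topology ContDiff
open Pool.Agent.Results.MP_91ee6f_gt
open Pool.Agent.Helper70.MB

namespace Pool.Agent.Helper24.MB

theorem mult : YOUNG → SYMB → CUTF → PROD → MULT := by
  intro hY hS hC hP n hn
  set s : ℝ := sx n with hs
  have hs0 : 0 ≤ s / 2 := by
    rw [hs]; unfold sx; positivity
  refine ⟨(2 : ℝ) ^ (s / 2) * (2 : ℝ) ^ (s / 2), by positivity, ?_⟩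
  intro χ u hχ hu
  have hχc : Continuous χ := hχ.1.continuous
  obtain ⟨B, hB⟩ := hχ.2.exists_bound_of_continuous hχc
  have hχi : Integrable χ := hχc.integrable_of_hasCompactSupport hχ.2
  have hint : Integrable (fun x => χ x * u x) :=
    hu.2.1.bdd_mul (c := B) hχc.aestronglyMeasurable (Filter.Eventually.of_forall hB)
  have hcont : Continuous (fun x => χ x * u x) := hχc.mul hu.1
  set G : En n → ℝ := fun a => (2 : ℝ) ^ (s / 2) * (br a ^ (s / 2) * ‖hat χ a‖) with hG
  set f : En n → ℝ := fun ξ => br ξ ^ (s / 2) * ‖hat u ξ‖ with hf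
  have hG0 : ∀ x, 0 ≤ G x := fun x =>
    mul_nonneg (by positivity) (mul_nonneg (br_rpow_pos x _).le (norm_nonneg _))
  have hf0 : ∀ x, 0 ≤ f x := fun x => mul_nonneg (br_rpow_pos x _).le (norm_nonneg _)
  have hGm : Measurable G :=
    (continuous_const.mul ((continuous_br_rpow _).mul (continuous_hat hχi).norm)).measurable
  have hfm : Measurable f :=
    ((continuous_br_rpow _).mul (continuous_hat hu.2.1).norm).measurable
  have hf2 : ∀ ξ, f ξ ^ 2 = br ξ ^ s * ‖hat u ξ‖ ^ 2 := by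
    intro ξ
    rw [hf]
    simp only
    rw [mul_pow, ← Real.rpow_natCast (br ξ ^ (s / 2)) 2, ← Real.rpow_mul (br_pos ξ).le]
    congr 2
    push_cast
    ring
  have hf2i : Integrable (fun x => f x ^ 2) := by
    simp_rw [hf2]
    exact hu.2.2
  have hGi : Integrable G := ((hC n χ hχ).1 (s / 2)).const_mul _
  obtain ⟨_, h1, h2, h3⟩ := hY n f G f hf0 hG0 hf0 hfm hGm hfm hf2i hGi hf2i
  have hpt : ∀ᵐ ζ : En n, br ζ ^ s * ‖hat (fun x => χ x * u x) ζ‖ ^ 2 ≤
      (∫ ξ, G (ζ - ξ) * f ξ) ^ 2 := by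
    filter_upwards [h1] with ζ hζ
    have e1 : br ζ ^ s * ‖hat (fun x => χ x * u x) ζ‖ ^ 2 =
        (br ζ ^ (s / 2) * ‖hat (fun x => χ x * u x) ζ‖) ^ 2 := by
      rw [mul_pow, ← Real.rpow_natCast (br ζ ^ (s / 2)) 2, ← Real.rpow_mul (br_pos ζ).le]
      congr 2
      push_cast
      ring
    rw [e1]
    apply pow_le_pow_left₀ (mul_nonneg (br_rpow_pos ζ _).le (norm_nonneg _))
    rw [(hP n χ u hχ hu.2.1).2.1 ζ]
    calc br ζ ^ (s / 2) * ‖∫ ξ, hat χ (ζ - ξ) * hat u ξ‖
        ≤ br ζ ^ (s / 2) * ∫ ξ, ‖hat χ (ζ - ξ) * hat u ξ‖ := by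
          apply mul_le_mul_of_nonneg_left (norm_integral_le_integral_norm _)
            (br_rpow_pos ζ _).le
      _ = ∫ ξ, br ζ ^ (s / 2) * ‖hat χ (ζ - ξ) * hat u ξ‖ := by rw [integral_const_mul]
      _ ≤ ∫ ξ, G (ζ - ξ) * f ξ := by
          apply integral_mono_of_nonneg
          · exact Filter.Eventually.of_forall fun ξ =>
              mul_nonneg (br_rpow_pos ζ _).le (norm_nonneg _)
          · exact hζ
          · refine Filter.Eventually.of_forall fun ξ => ?_
            simp only [hG, hf, norm_mul]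
            have hb : br ζ ^ (s / 2) ≤
                (2 : ℝ) ^ (s / 2) * br ξ ^ (s / 2) * br (ζ - ξ) ^ (s / 2) := by
              rw [← Real.mul_rpow (by norm_num) (br_pos ξ).le,
                ← Real.mul_rpow (mul_nonneg (by norm_num) (br_pos ξ).le) (br_pos _).le]
              exact Real.rpow_le_rpow (br_pos ζ).le ((hS n hn).1 ξ ζ) hs0
            calc br ζ ^ (s / 2) * (‖hat χ (ζ - ξ)‖ * ‖hat u ξ‖)
                ≤ (2 : ℝ) ^ (s / 2) * br ξ ^ (s / 2) * br (ζ - ξ) ^ (s / 2) *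
                  (‖hat χ (ζ - ξ)‖ * ‖hat u ξ‖) :=
                  mul_le_mul_of_nonneg_right hb (by positivity)
              _ = _ := by ring
  have hfin : Integrable (fun ξ : En n => br ξ ^ s * ‖hat (fun x => χ x * u x) ξ‖ ^ 2) := by
    refine h2.mono' ?_ ?_
    · exact ((continuous_br_rpow _).mul ((continuous_hat hint).norm.pow 2)).aestronglyMeasurable
    · filter_upwards [hpt] with ζ hζ
      rw [Real.norm_eq_abs, abs_of_nonneg (mul_nonneg (br_rpow_pos ζ s).le (sq_nonneg _))]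
      exact hζ
  refine ⟨⟨hcont, hint, hfin⟩, ?_⟩
  calc NN s (fun x => χ x * u x)
      ≤ ∫ ζ : En n, (∫ ξ, G (ζ - ξ) * f ξ) ^ 2 := integral_mono_ae hfin h2 hpt
    _ ≤ (∫ x, G x) ^ 2 * ∫ x, f x ^ 2 := h3
    _ = _ := by
        rw [hG, integral_const_mul]
        simp_rw [hf2]
        unfold NN
        ring

end Pool.Agent.Helper24.MB
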