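import Pool.Agent.Helper50.MB.Goals

/-!
# TC: a balanced subtree
-/

set_option autoImplicit false

namespace Pool.Agent.Helper24.MB

open Pool.Agent.Helper50.MB

theorem goalTC (hTREE : Pool.Agent.Helper50.MB.TREE) : Pool.Agent.Helper50.MB.TC := by
  intro X E _ _ gs gt x0 dx px ex h0 hPE hinj hdeg M hM
  classical
  have := Fintype.ofFinite X
  obtain ⟨t1, -, -, -⟩ := hTREE X E gs gt x0 dx px ex h0 hPE
  let W : X → Finset X := fun v => Finset.univ.filter fun x => x ∈ M ∧ Dsc px v x
  have hw : ∀ v, {x | x ∈ M ∧ Dsc px v x}.ncard = (W v).card := by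
    intro v
    rw [← Set.ncard_coe_finset]
    congr 1
    ext x
    simp [W]
  have hMx : {x | x ∈ M ∧ Dsc px x0 x} = M := by
    ext x
    exact ⟨fun h => h.1, fun h => ⟨h, t1 x⟩⟩
  have hW0 : (W x0).card = M.ncard := by rw [← hw, hMx]
  let S : Finset X := Finset.univ.filter fun v => M.ncard < 8 * (W v).card
  have hS : S.Nonempty := by
    refine ⟨x0, Finset.mem_filter.2 ⟨Finset.mem_univ _, ?_⟩⟩
    rw [hW0]
    omega
  obtain ⟨v, hv, hmax⟩ := S.exists_max_image dx hS
  have hv' : M.ncard < 8 * (W v).card := (Finset.mem_filter.1 hv).2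
  let C : Finset X := Finset.univ.filter fun c => c ≠ x0 ∧ px c = v
  have hC : ∀ c ∈ C, 8 * (W c).card ≤ M.ncard := by
    intro c hc
    obtain ⟨-, hc0, hcv⟩ := Finset.mem_filter.1 hc
    by_contra hlt
    have hcS : c ∈ S := Finset.mem_filter.2 ⟨Finset.mem_univ _, not_le.1 hlt⟩
    have h1 := hmax c hcS
    have h2 := (hPE c hc0).1
    rw [hcv] at h2
    omega
  have hC4 : C.card ≤ 4 := by
    refine le_trans ?_ (hdeg v)
    rw [← Set.ncard_coe_finset]
    refine Set.ncard_le_ncard_of_injOn ex ?_ ?_ (Set.toFinite _)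
    · intro c hc
      obtain ⟨-, hc0, hcv⟩ := Finset.mem_filter.1 (Finset.mem_coe.1 hc)
      have h2 := (hPE c hc0).2
      rw [hcv] at h2
      rcases h2 with h2 | h2
      · exact Or.inr h2.2
      · exact Or.inl h2.1
    · intro c hc c' hc' h
      exact hinj c c' (Finset.mem_filter.1 (Finset.mem_coe.1 hc)).2.1
        (Finset.mem_filter.1 (Finset.mem_coe.1 hc')).2.1 h
  have hsub : W v ⊆ insert v (C.biUnion W) := by
    intro x hx
    obtain ⟨-, hxM, hk⟩ := Finset.mem_filter.1 hx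
    have hk' : ∃ k : ℕ, px^[k] x = v := hk
    have hf := Nat.find_spec hk'
    have hmin := fun m => Nat.find_min hk' (m := m)
    generalize Nat.find hk' = k at hf hmin
    rcases k with _ | j
    · exact Finset.mem_insert.2 (Or.inl hf)
    · rw [Function.iterate_succ_apply'] at hf
      refine Finset.mem_insert_of_mem (Finset.mem_biUnion.2 ⟨px^[j] x, ?_, ?_⟩)
      · refine Finset.mem_filter.2 ⟨Finset.mem_univ _, ?_, hf⟩
        intro hc
        rw [hc, h0] at hf
        exact hmin j (Nat.lt_succ_self j) (hc.trans hf)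
      · exact Finset.mem_filter.2 ⟨Finset.mem_univ _, hxM, j, rfl⟩
  have h1 : (W v).card ≤ ∑ c ∈ C, (W c).card + 1 :=
    (Finset.card_le_card hsub).trans ((Finset.card_insert_le _ _).trans
      (Nat.add_le_add_right Finset.card_biUnion_le 1))
  have h2 : 8 * ∑ c ∈ C, (W c).card ≤ 4 * M.ncard := by
    rw [Finset.mul_sum]
    calc ∑ c ∈ C, 8 * (W c).card ≤ ∑ c ∈ C, M.ncard := Finset.sum_le_sum hC
      _ = C.card * M.ncard := by rw [Finset.sum_const, smul_eq_mul]
      _ ≤ 4 * M.ncard := Nat.mul_le_mul_right _ hC4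
  have h3 : 2 * (W v).card ≤ M.ncard + 2 := by omega
  refine ⟨v, ?_, ?_, ?_⟩
  · rintro rfl
    rw [hW0] at h3
    omega
  · rw [hw]
    exact hv'
  · rw [hw]
    exact h3

end Pool.Agent.Helper24.MB
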